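import Pool.Agent.H437R3.SC.Formula

/-!
# The number of satisfying assignments
-/

namespace Pool.Agent.H437R3.SC

open Finset H746R3.Inv Pool.Agent.H437R3.OW

variable {n : ℕ}

/-- the exponents -/
def ex (y : Fin n → Bool) (k : ℕ) : ℕ := ∑ j ∈ range k, (1 + (tv y j).toNat)

theorem card_fv (y : Fin n → Bool) (k : ℕ) (hk : k ≤ 6 * (n + 1)) :
    (Fintype.piFinset (fv y k)).card = 2 ^ ex y k := by
  rw [Fintype.card_piFinset]
  have h2 : ∀ j : Fin (6 * (n + 1)), (fv y k j).card =
      if (j : ℕ) < k then 2 ^ (1 + (tv y j).toNat) else 1 := by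
    intro j
    unfold fv
    by_cases h1 : (j : ℕ) < k
    · rw [if_pos h1, if_pos h1]
      cases tv y j <;> simp
    · rw [if_neg h1, if_neg h1, card_singleton]
  rw [Finset.prod_congr rfl fun j _ => h2 j]
  have h3 := Fin.prod_univ_eq_prod_range
    (fun j : ℕ => if j < k then 2 ^ (1 + (tv y j).toNat) else 1) (6 * (n + 1))
  rw [h3, Finset.prod_ite, Finset.prod_const_one, mul_one, Finset.prod_pow_eq_pow_sum]
  unfold ex
  congr 1
  refine Finset.sum_congr ?_ fun _ _ => rfl
  ext j
  simp only [mem_filter, mem_range]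
  omega

theorem numSat_eq (y : Fin n → Bool) :
    numSat (frm n y) = ∑ k ∈ range (6 * (n + 1) + 1), 2 ^ ex y k := by
  classical
  let A : Finset (Σ _ : ℕ, Fin (6 * (n + 1)) → Bool × Bool) :=
    (range (6 * (n + 1) + 1)).sigma fun k => Fintype.piFinset (fv y k)
  have hA : A.card = ∑ k ∈ range (6 * (n + 1) + 1), 2 ^ ex y k := by
    rw [Finset.card_sigma]
    refine Finset.sum_congr rfl fun k hk => ?_
    rw [mem_range] at hk
    exact card_fv y k (by omega)
  rw [← hA]
  unfold numSat
  have hfin : Nat.card {a : Vr n → Bool // Sat (frm n y) a} =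
      (univ.filter fun a : Vr n → Bool => Sat (frm n y) a).card := by
    rw [Nat.card_eq_fintype_card, Fintype.card_subtype]
  rw [hfin]
  refine (Finset.card_bij (fun q _ => asg y q.1 q.2) ?_ ?_ ?_).symm
  · rintro ⟨k, w⟩ hq
    rw [mem_sigma, mem_range] at hq
    obtain ⟨h1, h2⟩ := hq
    rw [mem_filter]
    exact ⟨mem_univ _, (sat_iff y _).2 (asg_sol y k w (Fintype.mem_piFinset.1 h2))⟩
  · rintro ⟨k, w⟩ hq ⟨k', w'⟩ hq' heq
    rw [mem_sigma, mem_range] at hq hq'
    have hw : w = w' := by
      funext j
      exact Prod.ext (congrFun heq (vw j)) (congrFun heq (vv j))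
    have hkk : k = k' := by
      have h1 : ∀ j : Fin (6 * (n + 1)), decide ((j : ℕ) < k) = decide ((j : ℕ) < k') := fun j =>
        congrFun heq (vs j)
      have hk1 := hq.1
      have hk2 := hq'.1
      simp only at hk1 hk2
      rcases lt_trichotomy k k' with hlt | hlt | hlt
      · have h2 := h1 ⟨k, by omega⟩
        have h3 := decide_eq_decide.1 h2
        simp only at h3
        omega
      · exact hlt
      · have h2 := h1 ⟨k', by omega⟩
        have h3 := decide_eq_decide.1 h2
        simp only at h3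
        omega
    subst hw hkk
    rfl
  · intro a ha
    rw [mem_filter] at ha
    obtain ⟨k, hk, hq, heq⟩ := ((sat_iff y a).1 ha.2).exists
    refine ⟨⟨k, fun j => (a (vw j), a (vv j))⟩, ?_, heq⟩
    rw [mem_sigma, mem_range]
    exact ⟨by simp only; omega, Fintype.mem_piFinset.2 hq⟩

/-- the binary digits of a sum of different powers of two -/
theorem testBit_sum : ∀ (K : ℕ) (b : ℕ → Bool) (j : ℕ),
    (∑ k ∈ range K, (b k).toNat * 2 ^ k).testBit j = (decide (j < K) && b j) := by
  intro K
  induction K with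
  | zero => intro b j; simp
  | succ K ih =>
    intro b j
    have h1 : ∑ k ∈ range (K + 1), (b k).toNat * 2 ^ k =
        (b 0).toNat + 2 * ∑ k ∈ range K, (b (k + 1)).toNat * 2 ^ k := by
      rw [Finset.sum_range_succ', pow_zero, mul_one, add_comm, Finset.mul_sum]
      congr 1
      refine Finset.sum_congr rfl fun k _ => ?_
      rw [pow_succ]
      ring
    rw [h1]
    cases j with
    | zero =>
      rw [Nat.testBit_zero]
      cases b 0 <;> simp [Nat.add_mod]
    | succ j =>
      rw [Nat.testBit_succ]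
      have h2 : ((b 0).toNat + 2 * ∑ k ∈ range K, (b (k + 1)).toNat * 2 ^ k) / 2 =
          ∑ k ∈ range K, (b (k + 1)).toNat * 2 ^ k := by
        have := Bool.toNat_le (b 0)
        omega
      rw [h2, ih (fun k => b (k + 1)) j]
      simp

theorem tv_block (y : Fin n → Bool) (i x : ℕ) (hx : x < 6) :
    tv y (6 * i + x) = decide (ps y i % 6 = x) := by
  unfold tv
  rw [show (6 * i + x) / 6 = i by omega, show (6 * i + x) % 6 = x by omega]

theorem ex_block (y : Fin n → Bool) (i x : ℕ) (hx : x ≤ 6) :
    ex y (6 * i + x) = ex y (6 * i) + x + (decide (ps y i % 6 < x)).toNat := by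
  induction x with
  | zero => simp
  | succ x ih =>
    have h1 : ex y (6 * i + (x + 1)) = ex y (6 * i + x) + (1 + (tv y (6 * i + x)).toNat) := by
      unfold ex
      rw [← add_assoc, Finset.sum_range_succ]
    rw [h1, ih (by omega), tv_block y i x (by omega)]
    rcases lt_trichotomy (ps y i % 6) x with h | h | h
    · have h2 : ¬ ps y i % 6 = x := by omega
      have h3 : ps y i % 6 < x + 1 := by omega
      simp [h, h2, h3]
      omega
    · have h2 : ¬ ps y i % 6 < x := by omega
      have h3 : ps y i % 6 < x + 1 := by omega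
      simp only [h, h2, h3, decide_true, decide_false, Bool.toNat_true, Bool.toNat_false]
      simp
      omega
    · have h2 : ¬ ps y i % 6 < x := by omega
      have h3 : ¬ ps y i % 6 < x + 1 := by omega
      have h4 : ¬ ps y i % 6 = x := by omega
      simp [h2, h3, h4]
      omega

theorem ex_six (y : Fin n → Bool) (i : ℕ) : ex y (6 * i) = 7 * i := by
  induction i with
  | zero => simp [ex]
  | succ i ih =>
    rw [show 6 * (i + 1) = 6 * i + 6 by ring, ex_block y i 6 le_rfl, ih]
    have : ps y i % 6 < 6 := Nat.mod_lt _ (by norm_num)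
    simp [this]
    ring

/-- the digits -/
def dg (y : Fin n → Bool) (p : ℕ) : Bool := !decide (ps y (p / 7) % 6 + 1 = p % 7)

theorem window (r : ℕ) (hr : r < 6) : ∑ x ∈ range 6, 2 ^ (x + (decide (r < x)).toNat) =
    ∑ c ∈ range 7, (!decide (r + 1 = c)).toNat * 2 ^ c := by
  interval_cases r <;> simp [Finset.sum_range_succ]

theorem group_sum (y : Fin n → Bool) (N : ℕ) :
    ∑ k ∈ range (6 * N), 2 ^ ex y k = ∑ p ∈ range (7 * N), (dg y p).toNat * 2 ^ p := by
  induction N with
  | zero => simp
  | succ N ih =>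
    rw [show 6 * (N + 1) = 6 * N + 6 by ring, show 7 * (N + 1) = 7 * N + 7 by ring,
      Finset.sum_range_add, Finset.sum_range_add, ih]
    congr 1
    have h1 : ∀ x ∈ range 6, 2 ^ ex y (6 * N + x) =
        2 ^ (7 * N) * 2 ^ (x + (decide (ps y N % 6 < x)).toNat) := by
      intro x hx
      rw [mem_range] at hx
      rw [ex_block y N x hx.le, ex_six, ← pow_add]
      congr 1
      ring
    have h2 : ∀ c ∈ range 7, (dg y (7 * N + c)).toNat * 2 ^ (7 * N + c) =
        2 ^ (7 * N) * ((!decide (ps y N % 6 + 1 = c)).toNat * 2 ^ c) := by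
      intro c hc
      rw [mem_range] at hc
      unfold dg
      rw [show (7 * N + c) / 7 = N by omega, show (7 * N + c) % 7 = c by omega, pow_add]
      ring
    rw [Finset.sum_congr rfl h1, Finset.sum_congr rfl h2, ← Finset.mul_sum, ← Finset.mul_sum,
      window _ (Nat.mod_lt _ (by norm_num))]

theorem numSat_bit (y : Fin n → Bool) (i : ℕ) (hi : i ≤ n) (b : ℕ) (hb : b < 6) :
    (numSat (frm n y)).testBit (7 * i + b + 1) = !decide (ps y i % 6 = b) := by
  have h1 : numSat (frm n y) =
      ∑ p ∈ range (7 * (n + 1) + 1), (if p < 7 * (n + 1) then dg y p else true).toNat * 2 ^ p := by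
    rw [numSat_eq, Finset.sum_range_succ, Finset.sum_range_succ, group_sum, ex_six]
    congr 1
    · refine Finset.sum_congr rfl fun p hp => ?_
      rw [mem_range] at hp
      rw [if_pos hp]
    · simp
  rw [h1, testBit_sum]
  have h2 : 7 * i + b + 1 < 7 * (n + 1) + 1 := by omega
  have h3 : 7 * i + b + 1 < 7 * (n + 1) := by omega
  simp only [h2, h3, decide_true, Bool.true_and, if_true]
  unfold dg
  rw [show (7 * i + b + 1) / 7 = i by omega, show (7 * i + b + 1) % 7 = b + 1 by omega]
  congr 1
  exact decide_eq_decide.2 (by omega)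

end Pool.Agent.H437R3.SC
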