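import Pool.Agent.H437R3.SC.Main

/-!
# Properties of the formulas, and circuits of arbitrary gates only
-/

namespace Pool.Agent.H437R3.SC

open Finset H746R3.Inv Pool.Agent.H437R3.OW

variable {n : ℕ}

/-- all variables occur -/
theorem frm_occurs (y : Fin n → Bool) (v : Vr n) : ∃ c b, (v, b) ∈ frm n y c := by
  rcases v with ⟨i, b⟩ | k | k | k
  · refine Fin.cases ?_ (fun i' => ?_) i
    · exact ⟨.inl b, decide (b = 0), mem_singleton_self _⟩
    · refine ⟨.inr (.inl (i', b - (if y i' then 1 else 0), true)), true, ?_⟩
      simp only [frm, mem_insert, mem_singleton, sub_add_cancel]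
      right
      rfl
  · exact ⟨.inr (.inr (.inl k)), true, by simp [frm, vs]⟩
  · exact ⟨.inr (.inr (.inl k)), false, by simp [frm, vw]⟩
  · exact ⟨.inr (.inr (.inr (.inl k))), false, by simp [frm, vv]⟩

/-- every bit of the formula depends on at most one bit of the string -/
theorem frm_local (q : Cl n × Vr n × Bool) :
    (∀ y y', bits (frm n y) q = bits (frm n y') q) ∨
      ∃ i, ∀ y y' : Fin n → Bool, y i = y' i → bits (frm n y) q = bits (frm n y') q := by
  obtain ⟨a | ⟨i, a, f⟩ | k | k | k | k, l⟩ := q
  · exact Or.inl fun y y' => rfl
  · refine Or.inr ⟨i, fun y y' h => ?_⟩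
    have h2 : frm n y (.inr (.inl (i, a, f))) = frm n y' (.inr (.inl (i, a, f))) := by
      simp only [frm, h]
    refine decide_eq_decide.2 ?_
    show l ∈ frm n y (.inr (.inl (i, a, f))) ↔ l ∈ frm n y' (.inr (.inl (i, a, f)))
    rw [h2]
  · exact Or.inl fun y y' => rfl
  · exact Or.inl fun y y' => rfl
  · exact Or.inl fun y y' => rfl
  · exact Or.inl fun y y' => rfl

theorem numSat_lt {V M : Type} [Fintype V] (F : M → Finset (V × Bool)) :
    numSat F < 2 ^ (Fintype.card V + 1) := by
  classical
  unfold numSat
  have h1 : Nat.card {a : V → Bool // Sat F a} ≤ Nat.card (V → Bool) :=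
    Nat.card_le_card_of_injective _ Subtype.val_injective
  have h2 : Nat.card (V → Bool) = 2 ^ Fintype.card V := by
    rw [Nat.card_eq_fintype_card, Fintype.card_fun, Fintype.card_bool]
  rw [pow_succ]
  have h3 : 0 < 2 ^ Fintype.card V := by positivity
  omega

/-- As many arbitrary gates as there are digits suffice. -/
theorem easy (V M : Type) [Fintype V] [DecidableEq V] [Fintype M] :
    ∃ C : Circuit (M × V × Bool) (Fin (Fintype.card V + 1)), C.DepthLE 1 ∧
      C.G = Fintype.card V + 1 ∧
      ∀ (p : ℕ) (F : M → Finset (V × Bool)), C.Computes p (bits F) (digits F) := by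
  classical
  let L : List (M × V × Bool) := Finset.univ.toList
  let dec : ℕ → List Bool → Bool := fun g l =>
    if h : ∃ F : M → Finset (V × Bool), L.map (bits F) = l then (numSat h.choose).testBit g
    else false
  have hdec : ∀ g (F : M → Finset (V × Bool)), dec g (L.map (bits F)) = (numSat F).testBit g := by
    intro g F
    have hex : ∃ F' : M → Finset (V × Bool), L.map (bits F') = L.map (bits F) := ⟨F, rfl⟩
    have h1 : hex.choose = F := by
      have h2 := hex.choose_spec
      have h3 : bits hex.choose = bits F := by
        funext q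
        exact List.map_inj_left.1 h2 q (by simp [L])
      funext c
      ext l
      have := congrFun h3 (c, l)
      simpa [bits] using this
    simp only [dec]
    rw [dif_pos hex, h1]
  refine ⟨{ G := Fintype.card V + 1
            kind := fun g => .wild (dec g)
            wires := fun _ => L.map fun q => (false, .inl q)
            level := fun _ => 0
            level_lt := fun g b g' h => by simp at h
            out := fun g => (false, .inr g) }, fun g => Nat.zero_lt_one, rfl, fun p F => ?_⟩
  refine ⟨fun g => (numSat F).testBit g, fun g => ?_, fun j => ?_⟩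
  · simp only [Kind.eval, List.map_map]
    rw [← hdec g F]
    congr 1
    refine List.map_congr_left fun q _ => ?_
    simp [Circuit.wire]
  · simp [Circuit.wire, digits]

end Pool.Agent.H437R3.SC
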