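import Pool.Agent.H437R3.OW.Bound

/-!
# 2-CNF formulas whose numbers of satisfying assignments encode all prefix sums modulo 6
-/

namespace Pool.Agent.H437R3.SC

open Finset H746R3.Inv Pool.Agent.H437R3.OW

/-- The assignment `a` satisfies the CNF formula `F` with the clauses `F c`: every clause contains
a literal `(v, b)` with `a v = b`. -/
def Sat {V M : Type} (F : M → Finset (V × Bool)) (a : V → Bool) : Prop :=
  ∀ c, ∃ l ∈ F c, a l.1 = l.2

/-- the number of satisfying assignments -/
noncomputable def numSat {V M : Type} (F : M → Finset (V × Bool)) : ℕ :=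
  Nat.card {a : V → Bool // Sat F a}

/-- the formula as a string of bits: the bit `(c, l)` says whether the literal `l` is in the
clause `c` -/
def bits {V M : Type} [DecidableEq V] (F : M → Finset (V × Bool)) : M × V × Bool → Bool :=
  fun q => decide (q.2 ∈ F q.1)

/-- the variables -/
abbrev Vr (n : ℕ) : Type :=
  (Fin (n + 1) × ZMod 6) ⊕ Fin (6 * (n + 1)) ⊕ Fin (6 * (n + 1)) ⊕ Fin (6 * (n + 1))

/-- the clauses -/
abbrev Cl (n : ℕ) : Type :=
  ZMod 6 ⊕ (Fin n × ZMod 6 × Bool) ⊕ Fin (6 * (n + 1)) ⊕ Fin (6 * (n + 1)) ⊕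
    Fin (6 * (n + 1)) ⊕ Fin (6 * (n + 1))

variable {n : ℕ}

def vz (i : Fin (n + 1)) (a : ZMod 6) : Vr n := .inl (i, a)
def vs (k : Fin (6 * (n + 1))) : Vr n := .inr (.inl k)
def vw (k : Fin (6 * (n + 1))) : Vr n := .inr (.inr (.inl k))
def vv (k : Fin (6 * (n + 1))) : Vr n := .inr (.inr (.inr k))

def prv (k : Fin (6 * (n + 1))) : Fin (6 * (n + 1)) := ⟨k - 1, by have := k.2; omega⟩

def vt (k : Fin (6 * (n + 1))) : Vr n := vz ⟨k / 6, by have := k.2; omega⟩ ((k % 6 : ℕ) : ZMod 6)

/-- the formula of the string `y` -/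
def frm (n : ℕ) (y : Fin n → Bool) : Cl n → Finset (Vr n × Bool)
  | .inl a => {(vz 0 a, decide (a = 0))}
  | .inr (.inl (i, a, e)) =>
      {(vz i.castSucc a, !e), (vz i.succ (a + if y i then 1 else 0), e)}
  | .inr (.inr (.inl k)) => {(vw k, false), (vs k, true)}
  | .inr (.inr (.inr (.inl k))) => {(vv k, false), (vs k, true)}
  | .inr (.inr (.inr (.inr (.inl k)))) => {(vv k, false), (vt k, true)}
  | .inr (.inr (.inr (.inr (.inr k)))) =>
      if (k : ℕ) = 0 then {(vw k, false), (vs k, true)} else {(vs k, false), (vs (prv k), true)}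

theorem frm_card (n : ℕ) (y : Fin n → Bool) (c : Cl n) : (frm n y c).card ≤ 2 := by
  rcases c with a | ⟨i, a, e⟩ | k | k | k | k
  · simp [frm]
  · simp only [frm]; exact Finset.card_le_two
  · simp only [frm]; exact Finset.card_le_two
  · simp only [frm]; exact Finset.card_le_two
  · simp only [frm]; exact Finset.card_le_two
  · simp only [frm]; split_ifs <;> exact Finset.card_le_two

/-- the prefix sums -/
def ps (y : Fin n → Bool) (i : ℕ) : ℕ := ∑ t ∈ range i, (ext y t).toNat

theorem ps_succ (y : Fin n → Bool) (i : Fin n) : ps y (i + 1) = ps y i + (y i).toNat := by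
  unfold ps
  rw [Finset.sum_range_succ, ext_lt y i i.2]

/-- the formula is satisfied -/
structure Sol (y : Fin n → Bool) (a : Vr n → Bool) : Prop where
  z0 : ∀ b, a (vz 0 b) = decide (b = 0)
  zs : ∀ (i : Fin n) b, a (vz i.succ (b + if y i then 1 else 0)) = a (vz i.castSucc b)
  w : ∀ k, a (vw k) = true → a (vs k) = true
  v : ∀ k, a (vv k) = true → a (vs k) = true
  t : ∀ k, a (vv k) = true → a (vt k) = true
  s : ∀ k : Fin (6 * (n + 1)), (k : ℕ) ≠ 0 → a (vs k) = true → a (vs (prv k)) = true

theorem imp_of {a : Vr n → Bool} {u v : Vr n}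
    (h : ∃ l ∈ ({(u, false), (v, true)} : Finset (Vr n × Bool)), a l.1 = l.2) :
    a u = true → a v = true := by
  intro hu
  obtain ⟨l, hl, hl2⟩ := h
  simp only [mem_insert, mem_singleton] at hl
  rcases hl with rfl | rfl
  · simp only at hl2
    rw [hu] at hl2
    exact absurd hl2 (by simp)
  · exact hl2

theorem of_imp {a : Vr n → Bool} {u v : Vr n} (h : a u = true → a v = true) :
    ∃ l ∈ ({(u, false), (v, true)} : Finset (Vr n × Bool)), a l.1 = l.2 := by
  by_cases hu : a u = true
  · exact ⟨(v, true), by simp, h hu⟩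
  · exact ⟨(u, false), by simp, by simpa using hu⟩

theorem sat_iff (y : Fin n → Bool) (a : Vr n → Bool) : Sat (frm n y) a ↔ Sol y a := by
  constructor
  · intro h
    refine ⟨?_, ?_, ?_, ?_, ?_, ?_⟩
    · intro b
      obtain ⟨l, hl, hl2⟩ := h (.inl b)
      simp only [frm, mem_singleton] at hl
      rw [hl] at hl2
      exact hl2
    · intro i b
      have key : ∀ e : Bool, a (vz i.castSucc b) = !e ∨
          a (vz i.succ (b + if y i then 1 else 0)) = e := by
        intro e
        obtain ⟨l, hl, hl2⟩ := h (.inr (.inl (i, b, e)))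
        simp only [frm, mem_insert, mem_singleton] at hl
        rcases hl with rfl | rfl
        · exact Or.inl hl2
        · exact Or.inr hl2
      have h1 := key true
      have h2 := key false
      revert h1 h2
      cases a (vz i.castSucc b) <;> cases a (vz i.succ (b + if y i then 1 else 0)) <;> simp
    · intro k
      exact imp_of (h (.inr (.inr (.inl k))))
    · intro k
      exact imp_of (h (.inr (.inr (.inr (.inl k)))))
    · intro k
      exact imp_of (h (.inr (.inr (.inr (.inr (.inl k))))))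
    · intro k hk0
      have h1 := h (.inr (.inr (.inr (.inr (.inr k)))))
      simp only [frm, if_neg hk0] at h1
      exact imp_of h1
  · intro h c
    rcases c with b | ⟨i, b, e⟩ | k | k | k | k
    · exact ⟨_, mem_singleton_self _, h.z0 b⟩
    · have h1 := h.zs i b
      by_cases h2 : a (vz i.castSucc b) = !e
      · exact ⟨(vz i.castSucc b, !e), by simp [frm], h2⟩
      · refine ⟨(vz i.succ (b + if y i then 1 else 0), e), by simp [frm], ?_⟩
        simp only
        rw [h1]
        revert h2
        cases a (vz i.castSucc b) <;> cases e <;> simp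
    · exact of_imp (h.w k)
    · exact of_imp (h.v k)
    · exact of_imp (h.t k)
    · by_cases h0 : (k : ℕ) = 0
      · simp only [frm, if_pos h0]
        exact of_imp (h.w k)
      · simp only [frm, if_neg h0]
        exact of_imp (h.s k h0)

/-- the residues are determined -/
theorem Sol.z {y : Fin n → Bool} {a : Vr n → Bool} (h : Sol y a) :
    ∀ (i : ℕ) (hi : i < n + 1) (b : ZMod 6), a (vz ⟨i, hi⟩ b) = decide (((ps y i : ℕ) : ZMod 6) = b) := by
  intro i
  induction i with
  | zero =>
    intro hi b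
    have h1 := h.z0 b
    rw [show (⟨0, hi⟩ : Fin (n + 1)) = 0 from rfl, h1]
    simp only [ps, range_zero, sum_empty, Nat.cast_zero]
    exact decide_eq_decide.2 eq_comm
  | succ i ih =>
    intro hi b
    have hi' : i < n := by omega
    have h1 := h.zs ⟨i, hi'⟩ (b - if y ⟨i, hi'⟩ then 1 else 0)
    rw [sub_add_cancel] at h1
    have h2 := ih (by omega) (b - if y ⟨i, hi'⟩ then 1 else 0)
    have h3 := ps_succ y ⟨i, hi'⟩
    have h4 : a (vz ⟨i + 1, hi⟩ b) = decide (((ps y i : ℕ) : ZMod 6) = b - if y ⟨i, hi'⟩ then 1 else 0) := by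
      rw [← h2]; exact h1
    rw [h4]
    refine decide_eq_decide.2 ?_
    simp only at h3
    rw [h3]
    push_cast
    rw [eq_sub_iff_add_eq]
    cases y ⟨i, hi'⟩ <;> simp

/-- the truth values of the residues, one after the other -/
def tv (y : Fin n → Bool) (k : ℕ) : Bool := decide (ps y (k / 6) % 6 = k % 6)

theorem tv_cast (y : Fin n → Bool) (k : ℕ) :
    decide (((ps y (k / 6) : ℕ) : ZMod 6) = ((k % 6 : ℕ) : ZMod 6)) = tv y k := by
  unfold tv
  refine decide_eq_decide.2 ?_
  rw [ZMod.natCast_eq_natCast_iff]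
  unfold Nat.ModEq
  rw [Nat.mod_mod]

theorem Sol.vt {y : Fin n → Bool} {a : Vr n → Bool} (h : Sol y a) (k : Fin (6 * (n + 1))) :
    a (SC.vt k) = tv y k := by
  unfold SC.vt
  rw [h.z, tv_cast]

/-- the assignment of an index and of the free variables -/
def asg (y : Fin n → Bool) (k : ℕ) (q : Fin (6 * (n + 1)) → Bool × Bool) : Vr n → Bool
  | .inl (i, b) => decide (((ps y i : ℕ) : ZMod 6) = b)
  | .inr (.inl j) => decide ((j : ℕ) < k)
  | .inr (.inr (.inl j)) => (q j).1
  | .inr (.inr (.inr j)) => (q j).2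

/-- the values of the free variables -/
def fv (y : Fin n → Bool) (k : ℕ) (j : Fin (6 * (n + 1))) : Finset (Bool × Bool) :=
  if (j : ℕ) < k then (if tv y j then univ else {(false, false), (true, false)})
  else {(false, false)}

theorem mem_fv (y : Fin n → Bool) (k : ℕ) (j : Fin (6 * (n + 1))) (b : Bool × Bool) :
    b ∈ fv y k j ↔ (b.1 = true → (j : ℕ) < k) ∧ (b.2 = true → (j : ℕ) < k ∧ tv y j = true) := by
  unfold fv
  obtain ⟨b1, b2⟩ := b
  by_cases h1 : (j : ℕ) < k
  · by_cases h2 : tv y j = true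
    · simp [h1, h2]
    · cases b1 <;> cases b2 <;> simp [h1, h2]
  · cases b1 <;> cases b2 <;> simp [h1]

theorem asg_sol (y : Fin n → Bool) (k : ℕ) (q : Fin (6 * (n + 1)) → Bool × Bool)
    (hq : ∀ j, q j ∈ fv y k j) : Sol y (asg y k q) := by
  refine ⟨fun b => ?_, fun i b => ?_, fun j hj => ?_, fun j hj => ?_, fun j hj => ?_,
    fun j hj0 hj => ?_⟩
  · show decide (((ps y 0 : ℕ) : ZMod 6) = b) = decide (b = 0)
    simp only [ps, range_zero, sum_empty, Nat.cast_zero]
    exact decide_eq_decide.2 eq_comm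
  · show decide (((ps y (i + 1) : ℕ) : ZMod 6) = b + if y i then 1 else 0) =
      decide (((ps y i : ℕ) : ZMod 6) = b)
    rw [ps_succ]
    refine decide_eq_decide.2 ?_
    push_cast
    cases y i <;> simp
  · show decide ((j : ℕ) < k) = true
    rw [decide_eq_true_iff]
    exact ((mem_fv y k j _).1 (hq j)).1 hj
  · show decide ((j : ℕ) < k) = true
    rw [decide_eq_true_iff]
    exact (((mem_fv y k j _).1 (hq j)).2 hj).1
  · show decide (((ps y ((j : ℕ) / 6) : ℕ) : ZMod 6) = ((j % 6 : ℕ) : ZMod 6)) = true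
    rw [tv_cast]
    exact (((mem_fv y k j _).1 (hq j)).2 hj).2
  · have hj' : decide ((j : ℕ) < k) = true := hj
    rw [decide_eq_true_iff] at hj'
    show decide (((prv j : Fin (6 * (n + 1))) : ℕ) < k) = true
    rw [decide_eq_true_iff]
    show (j : ℕ) - 1 < k
    omega

theorem Sol.exists {y : Fin n → Bool} {a : Vr n → Bool} (h : Sol y a) :
    ∃ k ≤ 6 * (n + 1), (∀ j, (a (vw j), a (vv j)) ∈ fv y k j) ∧
      asg y k (fun j => (a (vw j), a (vv j))) = a := by
  classical
  have hex : ∃ i, ∀ hi : i < 6 * (n + 1), a (vs ⟨i, hi⟩) = false :=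
    ⟨6 * (n + 1), fun hi => absurd hi (lt_irrefl _)⟩
  set k := Nat.find hex with hk
  have hk1 : ∀ hi : k < 6 * (n + 1), a (vs ⟨k, hi⟩) = false := Nat.find_spec hex
  have hk2 : ∀ i < k, ∃ hi : i < 6 * (n + 1), a (vs ⟨i, hi⟩) = true := by
    intro i hi
    have h1 := Nat.find_min hex hi
    push Not at h1
    obtain ⟨h2, h3⟩ := h1
    exact ⟨h2, by simpa using h3⟩
  have hkle : k ≤ 6 * (n + 1) := Nat.find_min' hex fun hi => absurd hi (lt_irrefl _)
  have hk3 : ∀ e, ∀ hi : k + e < 6 * (n + 1), a (vs ⟨k + e, hi⟩) = false := by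
    intro e
    induction e with
    | zero => exact hk1
    | succ e ih =>
      intro hi
      by_contra hcon
      have h1 := h.s ⟨k + (e + 1), hi⟩ (by simp) (by simpa using hcon)
      have h2 := ih (by omega)
      have h3 : prv ⟨k + (e + 1), hi⟩ = (⟨k + e, by omega⟩ : Fin (6 * (n + 1))) := by
        apply Fin.ext
        show k + (e + 1) - 1 = k + e
        omega
      rw [h3, h2] at h1
      exact absurd h1 (by simp)
  have hs : ∀ j : Fin (6 * (n + 1)), a (vs j) = decide ((j : ℕ) < k) := by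
    intro j
    by_cases hj : (j : ℕ) < k
    · obtain ⟨h1, h2⟩ := hk2 j hj
      rw [decide_eq_true hj]
      exact h2
    · rw [decide_eq_false hj]
      have h1 := hk3 (j - k) (by have := j.2; omega)
      have h2 : (⟨k + (j - k), by have := j.2; omega⟩ : Fin (6 * (n + 1))) = j := by
        apply Fin.ext
        show k + (j - k) = j
        omega
      rw [h2] at h1
      exact h1
  refine ⟨k, hkle, ?_, ?_⟩
  · intro j
    rw [mem_fv]
    refine ⟨fun h1 => ?_, fun h1 => ?_⟩
    · have h2 := h.w j h1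
      rwa [hs, decide_eq_true_iff] at h2
    · have h2 := h.v j h1
      rw [hs, decide_eq_true_iff] at h2
      have h3 := h.t j h1
      rw [h.vt] at h3
      exact ⟨h2, h3⟩
  · funext v
    rcases v with ⟨i, b⟩ | j | j | j
    · exact (h.z i i.2 b).symm
    · exact (hs j).symm
    · rfl
    · rfl

end Pool.Agent.H437R3.SC
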