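import Pool.Agent.H437R3.SC.Count

/-!
# Circuits that count satisfying assignments
-/

namespace Pool.Agent.H437R3.SC

open Finset H746R3.Inv Pool.Agent.H437R3.OW

variable {n : ℕ}

theorem card_Vr (n : ℕ) : Fintype.card (Vr n) = 24 * n + 24 := by
  simp only [Vr, Fintype.card_sum, Fintype.card_prod, Fintype.card_fin, ZMod.card]
  ring

theorem card_Cl (n : ℕ) : Fintype.card (Cl n) = 36 * n + 30 := by
  simp only [Cl, Fintype.card_sum, Fintype.card_prod, Fintype.card_fin, ZMod.card,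
    Fintype.card_bool]
  ring

/-- the digits of the number of satisfying assignments -/
noncomputable def digits {V M : Type} [Fintype V] (F : M → Finset (V × Bool)) :
    Fin (Fintype.card V + 1) → Bool := fun i => (numSat F).testBit i

/-- the string made of the blocks `y` and the rest `c` -/
def glue {A B : Type} (e : A ⊕ B ≃ Fin n) (y : A → Bool) (c : B → Bool) : Fin n → Bool :=
  fun i => Sum.elim y c (e.symm i)

theorem inp_mem {K : Type*} [Field K] {A B : Type} [DecidableEq A] (e : A ⊕ B ≃ Fin n)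
    (c : B → Bool) (q : Cl n × Vr n × Bool) :
    (fun y : A → Bool => (bK (bits (frm n (glue e y c)) q) : K)) ∈ LD K A 1 := by
  obtain ⟨a | ⟨i, a, f⟩ | k | k | k | k, l⟩ := q
  · exact const_mem (K := K) (bK (bits (frm n fun _ => false) (.inl a, l))) 1
  · have h1 : (fun y : A → Bool => (bK (bits (frm n (glue e y c)) (.inr (.inl (i, a, f)), l)) : K)) =
        fun y => bK (decide (l ∈ ({(vz i.castSucc a, !f),
          (vz i.succ (a + if Sum.elim y c (e.symm i) then 1 else 0), f)} :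
            Finset (Vr n × Bool)))) := rfl
    rw [h1]
    rcases e.symm i with v | v
    · exact bit_mem (K := K) (fun b => bK (decide (l ∈ ({(vz i.castSucc a, !f),
          (vz i.succ (a + if b then 1 else 0), f)} : Finset (Vr n × Bool))))) v
    · exact const_mem (K := K) (bK (decide (l ∈ ({(vz i.castSucc a, !f),
          (vz i.succ (a + if c v then 1 else 0), f)} : Finset (Vr n × Bool))))) 1
  · exact const_mem (K := K) (bK (bits (frm n fun _ => false) (.inr (.inr (.inl k)), l))) 1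
  · exact const_mem (K := K) (bK (bits (frm n fun _ => false) (.inr (.inr (.inr (.inl k))), l))) 1
  · exact const_mem (K := K)
      (bK (bits (frm n fun _ => false) (.inr (.inr (.inr (.inr (.inl k)))), l))) 1
  · exact const_mem (K := K)
      (bK (bits (frm n fun _ => false) (.inr (.inr (.inr (.inr (.inr k)))), l))) 1

theorem sum_res {K : Type*} [Field K] (ζ : K) (hζ6 : ζ ^ 6 = 1) (s : ℕ) :
    (∑ b : Fin 6, if decide (s % 6 = (b : ℕ)) then ζ ^ (b : ℕ) else 0) = ζ ^ s := by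
  rw [Finset.sum_eq_single (⟨s % 6, Nat.mod_lt _ (by norm_num)⟩ : Fin 6)]
  · rw [if_pos (by simp)]
    conv_rhs => rw [← Nat.mod_add_div s 6, pow_add, pow_mul, hζ6, one_pow, mul_one]
  · intro b _ hb
    rw [if_neg]
    intro h
    rw [decide_eq_true_iff] at h
    exact hb (Fin.ext h.symm)
  · intro h
    exact absurd (mem_univ _) h

theorem ps_block {k m : ℕ} {B : Type} (e : (Fin k × Fin m) ⊕ B ≃ Fin n)
    (he : ∀ j t, ((e (.inl (j, t)) : Fin n) : ℕ) = j * m + t) (y : Fin k × Fin m → Bool)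
    (c : B → Bool) (j : Fin k) :
    ps (glue e y c) ((j + 1) * m) = ps (glue e y c) (j * m) + ∑ t : Fin m, (y (j, t)).toNat := by
  unfold ps
  rw [add_mul, one_mul, Finset.sum_range_add, Finset.sum_range (n := m)]
  congr 1
  refine Finset.sum_congr rfl fun t _ => ?_
  have h1 : (j : ℕ) * m + t < n := by rw [← he j t]; exact (e (.inl (j, t))).2
  rw [ext_lt _ _ h1]
  have h2 : (⟨(j : ℕ) * m + t, h1⟩ : Fin n) = e (.inl (j, t)) := Fin.ext (he j t).symm
  rw [h2]
  simp [glue]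

theorem fibre (p : ℕ) [Fact p.Prime] (h ℓ d k : ℕ) {B : Type} [Fintype B]
    (e : (Fin k × Fin (2 * (6400 * d ^ 2))) ⊕ B ≃ Fin n)
    (he : ∀ j t, ((e (.inl (j, t)) : Fin n) : ℕ) = j * (2 * (6400 * d ^ 2)) + t)
    (hkm : k * (2 * (6400 * d ^ 2)) ≤ n)
    (C : Circuit (Cl n × Vr n × Bool) (Fin (Fintype.card (Vr n) + 1))) (c : B → Bool) (hℓ : 1 ≤ ℓ)
    (hC : C.DepthLE h) (hd1 : 1 ≤ d) (hd : 12 * (ℓ * (p - 1)) ^ h ≤ d)
    (S : Finset (Fin k × Fin (2 * (6400 * d ^ 2)) → Bool))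
    (hS : ∀ y ∈ S, C.Computes p (bits (frm n (glue e y c))) (digits (frm n (glue e y c)))) :
    (S.card : ℝ) ≤ 2 ^ Fintype.card (BV (Fin k) d) *
        (C.G / p ^ ℓ + 2 ^ C.wildGates * (2 * Real.exp (-(k / 400)))) := by
  classical
  obtain ⟨K, _, _, ζ, hζ0, hζ1, hζ6⟩ := exists_root p
  have hj1 : ∀ j : Fin k, ((j : ℕ) + 1) * (2 * (6400 * d ^ 2)) ≤ n := fun j =>
    (Nat.mul_le_mul_right _ j.2).trans hkm
  have hj0 : ∀ j : Fin k, (j : ℕ) * (2 * (6400 * d ^ 2)) ≤ n := fun j =>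
    (Nat.mul_le_mul_right _ j.2.le).trans hkm
  have hV := card_Vr n
  set o : Fin k → Fin 12 → Fin (Fintype.card (Vr n) + 1) := fun j i =>
    if hi : (i : ℕ) < 6 then ⟨7 * (j * (2 * (6400 * d ^ 2))) + i + 1, by have := hj0 j; omega⟩
    else ⟨7 * ((j + 1) * (2 * (6400 * d ^ 2))) + (i - 6) + 1,
      by have := hj1 j; have := i.2; omega⟩ with ho
  set Φ : Fin k → (Fin 12 → Bool) → K := fun j a =>
    (∑ b : Fin 6, if !(a ⟨b + 6, by omega⟩) then ζ ^ (b : ℕ) else 0) *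
      (∑ b : Fin 6, if !(a ⟨b, by omega⟩) then ζ ^ (b : ℕ) else 0)⁻¹ with hΦ
  have h1 := core (p := p) (K := K) (J := Fin k) C ℓ hℓ h hC d 12 hd1 hd
    (fun i y => bits (frm n (glue e y c)) i) (fun i => inp_mem e c i) ζ hζ0 hζ1 o Φ S ?_
  · rwa [Fintype.card_fin] at h1
  · intro y hy j
    obtain ⟨v, hv, hw⟩ := hS y hy
    have hv' : v = C.run p (bits (frm n (glue e y c))) := C.run_unique p _ v hv
    have hw' : ∀ i, C.wire (fun i => bits (frm n (glue e y c)) i)
        (C.run p (fun i => bits (frm n (glue e y c)) i)) (C.out i) =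
        digits (frm n (glue e y c)) i := by
      intro i
      rw [hw i, hv']
    simp only [hΦ, hw']
    have e1 : ∀ b : Fin 6, digits (frm n (glue e y c)) (o j ⟨b, by omega⟩) =
        !decide (ps (glue e y c) (j * (2 * (6400 * d ^ 2))) % 6 = (b : ℕ)) := by
      intro b
      have : o j ⟨b, by omega⟩ = ⟨7 * (j * (2 * (6400 * d ^ 2))) + b + 1, by have := hj0 j; omega⟩ := by
        simp only [ho]
        rw [dif_pos b.2]
      rw [this]
      exact numSat_bit _ _ (hj0 j) _ b.2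
    have e2 : ∀ b : Fin 6, digits (frm n (glue e y c)) (o j ⟨b + 6, by omega⟩) =
        !decide (ps (glue e y c) ((j + 1) * (2 * (6400 * d ^ 2))) % 6 = (b : ℕ)) := by
      intro b
      have : o j ⟨b + 6, by omega⟩ = ⟨7 * ((j + 1) * (2 * (6400 * d ^ 2))) + b + 1, by have := hj1 j; omega⟩ := by
        simp only [ho]
        rw [dif_neg (by simp)]
        apply Fin.ext
        simp
      rw [this]
      exact numSat_bit _ _ (hj1 j) _ b.2
    simp only [e1, e2, Bool.not_not]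
    rw [sum_res ζ hζ6, sum_res ζ hζ6, ps_block e he y c j, pow_add]
    rw [mul_comm (ζ ^ _) (ζ ^ (∑ t : Fin (2 * (6400 * d ^ 2)), (y (j, t)).toNat)), mul_assoc,
      mul_inv_cancel₀ (pow_ne_zero _ hζ0), mul_one, ← Finset.prod_pow_eq_pow_sum]
    refine Finset.prod_congr rfl fun t _ => ?_
    cases y (j, t) <;> simp [zz]

theorem fibre' (p : ℕ) [Fact p.Prime] (h ℓ d k m : ℕ) (hm : m = 2 * (6400 * d ^ 2)) {B : Type}
    [Fintype B] (e : (Fin k × Fin m) ⊕ B ≃ Fin n)
    (he : ∀ j t, ((e (.inl (j, t)) : Fin n) : ℕ) = j * m + t)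
    (hkm : k * m ≤ n)
    (C : Circuit (Cl n × Vr n × Bool) (Fin (Fintype.card (Vr n) + 1))) (c : B → Bool) (hℓ : 1 ≤ ℓ)
    (hC : C.DepthLE h) (hd1 : 1 ≤ d) (hd : 12 * (ℓ * (p - 1)) ^ h ≤ d)
    (S : Finset (Fin k × Fin m → Bool))
    (hS : ∀ y ∈ S, C.Computes p (bits (frm n (glue e y c))) (digits (frm n (glue e y c)))) :
    (S.card : ℝ) ≤ 2 ^ (k * m) *
        (C.G / p ^ ℓ + 2 ^ C.wildGates * (2 * Real.exp (-(k / 400)))) := by
  subst hm
  have h3 := fibre p h ℓ d k e he hkm C c hℓ hC hd1 hd S hS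
  rwa [Fintype.card_prod, Fintype.card_fin, Fintype.card_fin] at h3

theorem glue_sum {A B : Type} [Fintype A] [Fintype B] [DecidableEq A] [DecidableEq B]
    (e : A ⊕ B ≃ Fin n) (P : (Fin n → Bool) → Prop) [DecidablePred P] :
    (univ.filter P).card = ∑ c : B → Bool, (univ.filter fun y : A → Bool => P (glue e y c)).card := by
  let E : (A → Bool) × (B → Bool) ≃ (Fin n → Bool) :=
    (Equiv.sumArrowEquivProdArrow A B Bool).symm.trans (e.arrowCongr (Equiv.refl _))
  have hE : ∀ q, E q = glue e q.1 q.2 := fun q => rfl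
  rw [Finset.card_filter, ← E.sum_comp, Fintype.sum_prod_type_right]
  refine Finset.sum_congr rfl fun c _ => ?_
  rw [Finset.card_filter]
  rfl

/-- Few formulas of the family are counted. -/
theorem hard (p : ℕ) (hp : p.Prime) (h n ℓ : ℕ) (hℓ : 1 ≤ ℓ)
    (C : Circuit (Cl n × Vr n × Bool) (Fin (Fintype.card (Vr n) + 1))) (hC : C.DepthLE h)
    (hG : C.G ≤ 2 ^ ℓ) (hn : 10 ^ 10 * (C.wildGates + ℓ) * (4 * p * ℓ) ^ (2 * h) ≤ n) :
    2 ^ ℓ * Nat.card {y : Fin n → Bool //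
      C.Computes p (bits (frm n y)) (digits (frm n y))} ≤ 2 ^ n := by
  classical
  haveI : Fact p.Prime := ⟨hp⟩
  have hp2 : 2 ≤ p := hp.two_le
  set t := C.wildGates with ht
  set q := (2 * ℓ + 1) * (p - 1) with hq
  set d := 12 * q ^ h with hd
  have hq1 : 1 ≤ q := Nat.mul_pos (by omega) (by omega)
  have hd1 : 1 ≤ d := Nat.mul_pos (by norm_num) (Nat.pow_pos hq1)
  set k := 1600 * (t + ℓ) with hk
  have hqle : q ≤ 4 * p * ℓ := by
    calc q ≤ (4 * ℓ) * p := Nat.mul_le_mul (by omega) (by omega)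
      _ = 4 * p * ℓ := by ring
  have hL : k * (2 * (6400 * d ^ 2)) ≤ n := by
    refine le_trans ?_ hn
    have h2 : d ^ 2 = 144 * q ^ (2 * h) := by rw [hd, pow_mul']; ring
    have h3 : q ^ (2 * h) ≤ (4 * p * ℓ) ^ (2 * h) := Nat.pow_le_pow_left hqle _
    calc k * (2 * (6400 * d ^ 2)) = 2949120000 * ((t + ℓ) * q ^ (2 * h)) := by rw [hk, h2]; ring
      _ ≤ 10 ^ 10 * ((t + ℓ) * (4 * p * ℓ) ^ (2 * h)) :=
          Nat.mul_le_mul (by norm_num) (Nat.mul_le_mul_left _ h3)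
      _ = _ := by ring
  obtain ⟨m, hm⟩ : ∃ m, m = 2 * (6400 * d ^ 2) := ⟨_, rfl⟩
  rw [← hm] at hL
  let e : (Fin k × Fin m) ⊕ Fin (n - k * m) ≃ Fin n :=
    ((finProdFinEquiv.sumCongr (Equiv.refl _)).trans finSumFinEquiv).trans
      (finCongr (by omega))
  have he : ∀ j t, ((e (.inl (j, t)) : Fin n) : ℕ) = j * m + t := by
    intro j t
    simp only [e, Equiv.trans_apply, Equiv.sumCongr_apply, Sum.map_inl, finSumFinEquiv_apply_left,
      finCongr_apply, Fin.val_cast, Fin.val_castAdd, finProdFinEquiv_apply_val]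
    ring
  have h1 : Nat.card {y : Fin n → Bool // C.Computes p (bits (frm n y)) (digits (frm n y))} =
      (univ.filter fun y : Fin n → Bool => C.Computes p (bits (frm n y)) (digits (frm n y))).card := by
    rw [Nat.card_eq_fintype_card, Fintype.card_subtype]
  rw [h1, glue_sum e]
  set δ : ℝ := C.G / p ^ (2 * ℓ + 1) + 2 ^ t * (2 * Real.exp (-(k / 400))) with hδ
  have h2 : ∀ c : Fin (n - k * m) → Bool, ((univ.filter fun y : Fin k × Fin m → Bool =>
      C.Computes p (bits (frm n (glue e y c))) (digits (frm n (glue e y c)))).card : ℝ) ≤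
      2 ^ (k * m) * δ := by
    intro c
    exact fibre' p h (2 * ℓ + 1) d k m hm e he hL C c (by omega) hC hd1 (le_of_eq rfl) _
      (fun y hy => (mem_filter.1 hy).2)
  set x : ℝ := (1 / 2) ^ ℓ with hx
  have hx0 : 0 < x := by positivity
  have e2 : (C.G : ℝ) / (p : ℝ) ^ (2 * ℓ + 1) ≤ x / 2 := by
    have hp' : (2 : ℝ) ≤ p := by exact_mod_cast hp2
    have h4 : (2 : ℝ) ^ (2 * ℓ + 1) ≤ (p : ℝ) ^ (2 * ℓ + 1) := pow_le_pow_left₀ (by norm_num) hp' _
    have h5 : (C.G : ℝ) ≤ 2 ^ ℓ := by exact_mod_cast hG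
    calc (C.G : ℝ) / (p : ℝ) ^ (2 * ℓ + 1) ≤ 2 ^ ℓ / 2 ^ (2 * ℓ + 1) :=
          div_le_div₀ (by positivity) h5 (by positivity) h4
      _ = x / 2 := by
          rw [hx, one_div, inv_pow, show 2 * ℓ + 1 = ℓ + ℓ + 1 by ring, pow_add, pow_add]
          have : (2 : ℝ) ^ ℓ ≠ 0 := by positivity
          field_simp
  have e3 : (2 : ℝ) ^ t * (2 * Real.exp (-((k : ℝ) / 400))) ≤ x / 2 := by
    have h4 : Real.exp (-1) ≤ 1 / 2 := by
      rw [Real.exp_neg, ← one_div]
      refine one_div_le_one_div_of_le (by norm_num) ?_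
      have := Real.add_one_le_exp (1 : ℝ)
      linarith
    have h5 : Real.exp (-((k : ℝ) / 400)) = Real.exp (-1) ^ (4 * (t + ℓ)) := by
      rw [← Real.exp_nat_mul, hk]
      congr 1
      push_cast
      ring
    have h6 : Real.exp (-1) ^ (4 * (t + ℓ)) ≤ (1 / 2) ^ (4 * (t + ℓ)) :=
      pow_le_pow_left₀ (Real.exp_pos _).le h4 _
    have h7 : ((1 : ℝ) / 2) ^ (4 * (t + ℓ)) ≤ (1 / 2) ^ (t + ℓ + 2) :=
      pow_le_pow_of_le_one (by norm_num) (by norm_num) (by omega)
    calc (2 : ℝ) ^ t * (2 * Real.exp (-((k : ℝ) / 400)))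
        ≤ 2 ^ t * (2 * (1 / 2) ^ (t + ℓ + 2)) := by
          rw [h5]
          gcongr
          exact h6.trans h7
      _ = x / 2 := by
          rw [hx, pow_add, pow_add]
          have h8 : (2 : ℝ) ^ t * (1 / 2) ^ t = 1 := by rw [← mul_pow]; norm_num
          calc (2 : ℝ) ^ t * (2 * ((1 / 2) ^ t * (1 / 2) ^ ℓ * (1 / 2) ^ 2))
              = ((2 : ℝ) ^ t * (1 / 2) ^ t) * (2 * ((1 / 2) ^ ℓ * (1 / 2) ^ 2)) := by ring
            _ = _ := by rw [h8]; ring
  have hδx : δ ≤ x := by rw [hδ]; linarith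
  have h3 : ((∑ c : Fin (n - k * m) → Bool, (univ.filter fun y : Fin k × Fin m → Bool =>
      C.Computes p (bits (frm n (glue e y c))) (digits (frm n (glue e y c)))).card : ℕ) : ℝ) ≤
      2 ^ n * x := by
    rw [Nat.cast_sum]
    refine (Finset.sum_le_sum fun c _ => h2 c).trans ?_
    rw [Finset.sum_const, card_univ, Fintype.card_fun, Fintype.card_bool, Fintype.card_fin,
      nsmul_eq_mul]
    have h4 : (2 : ℝ) ^ n = 2 ^ (n - k * m) * 2 ^ (k * m) := by
      rw [← pow_add]; congr 1; omega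
    refine le_trans (le_of_eq ?_)
      (mul_le_mul_of_nonneg_left hδx (by positivity : (0 : ℝ) ≤ 2 ^ n))
    rw [h4, Nat.cast_pow, Nat.cast_ofNat]
    exact (mul_assoc _ _ _).symm
  have h5 : (2 : ℝ) ^ ℓ * ((∑ c : Fin (n - k * m) → Bool,
      (univ.filter fun y : Fin k × Fin m → Bool =>
      C.Computes p (bits (frm n (glue e y c))) (digits (frm n (glue e y c)))).card : ℕ) : ℝ) ≤
      2 ^ n := by
    calc _ ≤ 2 ^ ℓ * (2 ^ n * x) := by gcongr
      _ = 2 ^ n * (2 ^ ℓ * (1 / 2) ^ ℓ) := by rw [hx]; ring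
      _ = 2 ^ n := by rw [← mul_pow]; norm_num
  exact_mod_cast h5

end Pool.Agent.H437R3.SC
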